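import Pool.Agent.Esc405.U2
import Pool.Agent.Esc405.U3
import Pool.Agent.Esc405.U5

/-!
# The upper bound: following the reciprocal polynomial
-/

set_option autoImplicit false

open Complex Polynomial MeasureTheory Filter Topology Set
open scoped ENNReal

namespace Pool.Agent.V1185.Esc

/-- `ℓ` is the length of a path in `E_f` from `0` to the unit circle -/
def Esc (f : ℂ[X]) (ℓ : ℝ≥0∞) : Prop :=
  ∃ γ : unitInterval → ℂ, Continuous γ ∧ γ 0 = 0 ∧ ‖γ 1‖ = 1 ∧
    (∀ t, ‖f.eval (γ t)‖ ≤ 1) ∧ ℓ = μH[1] (range γ)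

/-- the reciprocal polynomial -/
noncomputable def rcp (s : Multiset ℂ) : ℂ[X] :=
  (s.map fun a => 1 - C (starRingEnd ℂ a) * X).prod

lemma rcp_cons (a : ℂ) (s : Multiset ℂ) :
    rcp (a ::ₘ s) = (1 - C (starRingEnd ℂ a) * X) * rcp s := by
  unfold rcp
  rw [Multiset.map_cons, Multiset.prod_cons]

lemma rcp_deg (s : Multiset ℂ) : (rcp s).natDegree ≤ Multiset.card s := by
  induction s using Multiset.induction with
  | empty => simp [rcp]
  | cons a s ih =>
    rw [rcp_cons, Multiset.card_cons]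
    refine natDegree_mul_le.trans ?_
    have h1 : (1 - C (starRingEnd ℂ a) * X : ℂ[X]).natDegree ≤ 1 := by compute_degree
    omega

lemma rcp_zero (s : Multiset ℂ) : (rcp s).eval 0 = 1 := by
  induction s using Multiset.induction with
  | empty => simp [rcp]
  | cons a s ih =>
    rw [rcp_cons, eval_mul, ih]
    simp

lemma factor_le (z a : ℂ) (hz : ‖z‖ ≤ 1) (ha : ‖a‖ ≤ 1) :
    ‖z - a‖ ≤ ‖1 - starRingEnd ℂ a * z‖ := by
  have hz2 : z.re ^ 2 + z.im ^ 2 ≤ 1 := by
    have h := Complex.sq_norm z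
    rw [Complex.normSq_apply] at h
    nlinarith [norm_nonneg z]
  have ha2 : a.re ^ 2 + a.im ^ 2 ≤ 1 := by
    have h := Complex.sq_norm a
    rw [Complex.normSq_apply] at h
    nlinarith [norm_nonneg a]
  apply le_of_sq_le_sq _ (norm_nonneg _)
  rw [Complex.sq_norm, Complex.sq_norm, Complex.normSq_apply, Complex.normSq_apply]
  simp only [Complex.sub_re, Complex.sub_im, Complex.one_re, Complex.one_im, Complex.mul_re,
    Complex.mul_im, Complex.conj_re, Complex.conj_im]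
  have h3 : 0 ≤ (1 - (z.re ^ 2 + z.im ^ 2)) * (1 - (a.re ^ 2 + a.im ^ 2)) :=
    mul_nonneg (by linarith) (by linarith)
  nlinarith

lemma norm_le_rcp (s : Multiset ℂ) (hs : ∀ a ∈ s, ‖a‖ ≤ 1) (z : ℂ) (hz : ‖z‖ ≤ 1) :
    ‖((s.map fun a => X - C a).prod).eval z‖ ≤ ‖(rcp s).eval z‖ := by
  induction s using Multiset.induction with
  | empty => simp [rcp]
  | cons a s ih =>
    rw [rcp_cons, Multiset.map_cons, Multiset.prod_cons, eval_mul, eval_mul, norm_mul, norm_mul]
    refine mul_le_mul ?_ (ih fun b hb => hs b (Multiset.mem_cons_of_mem hb)) (norm_nonneg _)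
      (norm_nonneg _)
    simpa using factor_le z a hz (hs a (Multiset.mem_cons_self a s))

lemma rcp_root (s : Multiset ℂ) (hs : ∀ a ∈ s, ‖a‖ ≤ 1) (z : ℂ) (hz : (rcp s).eval z = 0) :
    1 ≤ ‖z‖ := by
  induction s using Multiset.induction with
  | empty => simp [rcp] at hz
  | cons a s ih =>
    rw [rcp_cons, eval_mul, mul_eq_zero] at hz
    rcases hz with hz | hz
    · simp only [eval_sub, eval_one, eval_mul, eval_C, eval_X] at hz
      have h1 : starRingEnd ℂ a * z = 1 := by linear_combination -hz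
      have h2 := congrArg norm h1
      rw [norm_mul, RCLike.norm_conj, norm_one] at h2
      have h3 := hs a (Multiset.mem_cons_self a s)
      by_contra hlt
      push Not at hlt
      nlinarith [norm_nonneg a, norm_nonneg z]
    · exact ih (fun b hb => hs b (Multiset.mem_cons_of_mem hb)) hz

/-- joining three pieces -/
lemma join (f : ℂ[X]) (z : ℝ → ℂ) (hz : Continuous z) (T : ℝ) (hT : 0 ≤ T) (w : ℂ) (hw : ‖w‖ = 1)
    (h1 : ∀ x ∈ segment ℝ (0 : ℂ) (z 0), ‖f.eval x‖ ≤ 1)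
    (h2 : ∀ t, 0 ≤ t → t ≤ T → ‖f.eval (z t)‖ ≤ 1)
    (h3 : ∀ x ∈ segment ℝ (z T) w, ‖f.eval x‖ ≤ 1) :
    ∃ ℓ, Esc f ℓ ∧ ℓ ≤ edist (0 : ℂ) (z 0) + μH[1] (z '' Icc 0 T) + edist (z T) w := by
  let p₁ : Path (0 : ℂ) (z 0) :=
    { toFun := fun t => (t : ℝ) • z 0
      continuous_toFun := by fun_prop
      source' := by simp
      target' := by simp }
  let p₂ : Path (z 0) (z T) :=
    { toFun := fun t => z ((t : ℝ) * T)
      continuous_toFun := by fun_prop
      source' := by simp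
      target' := by simp }
  let p₃ : Path (z T) w :=
    { toFun := fun t => z T + (t : ℝ) • (w - z T)
      continuous_toFun := by fun_prop
      source' := by simp
      target' := by simp }
  have r1 : range p₁ ⊆ segment ℝ (0 : ℂ) (z 0) := by
    rintro _ ⟨t, rfl⟩
    exact ⟨1 - t, t, by linarith [t.2.2], t.2.1, by ring, by
      change (1 - (t : ℝ)) • (0 : ℂ) + (t : ℝ) • z 0 = (t : ℝ) • z 0
      rw [smul_zero, zero_add]⟩
  have r2 : range p₂ ⊆ z '' Icc 0 T := by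
    rintro _ ⟨t, rfl⟩
    exact ⟨(t : ℝ) * T, ⟨mul_nonneg t.2.1 hT, mul_le_of_le_one_left hT t.2.2⟩, rfl⟩
  have r3 : range p₃ ⊆ segment ℝ (z T) w := by
    rintro _ ⟨t, rfl⟩
    exact ⟨1 - t, t, by linarith [t.2.2], t.2.1, by ring, by
      change (1 - (t : ℝ)) • z T + (t : ℝ) • w = z T + (t : ℝ) • (w - z T)
      rw [sub_smul, one_smul, smul_sub]
      abel⟩
  refine ⟨_, ⟨(p₁.trans p₂).trans p₃, ((p₁.trans p₂).trans p₃).continuous, ?_, ?_, ?_, rfl⟩, ?_⟩
  · simp
  · simpa using hw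
  · intro t
    have ht : ((p₁.trans p₂).trans p₃) t ∈ range ((p₁.trans p₂).trans p₃) := ⟨t, rfl⟩
    rw [Path.trans_range, Path.trans_range] at ht
    rcases ht with (ht | ht) | ht
    · exact h1 _ (r1 ht)
    · obtain ⟨s, hs, hst⟩ := r2 ht
      rw [← hst]
      exact h2 s hs.1 hs.2
    · exact h3 _ (r3 ht)
  · rw [Path.trans_range, Path.trans_range]
    refine (measure_union_le _ _).trans (add_le_add ((measure_union_le _ _).trans
      (add_le_add ?_ (measure_mono r2))) ?_)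
    · exact (measure_mono r1).trans (le_of_eq (hausdorffMeasure_segment _ _))
    · exact (measure_mono r3).trans (le_of_eq (hausdorffMeasure_segment _ _))

/-- the case of a nonconstant reciprocal polynomial -/
theorem upper_aux (f F : ℂ[X]) (n : ℕ) (hle : ∀ z : ℂ, ‖z‖ ≤ 1 → ‖f.eval z‖ ≤ ‖F.eval z‖)
    (hF0 : F.eval 0 = 1) (hFn : F.natDegree ≤ n) (hpos : 0 < F.natDegree)
    (hroot : ∀ z : ℂ, F.eval z = 0 → 1 ≤ ‖z‖) (ε : ℝ) (hε : 0 < ε) (hε1 : ε ≤ 1) :
    ∃ ℓ, Esc f ℓ ∧ ℓ ≤ 4 * n + ENNReal.ofReal (2 * ε) := by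
  obtain ⟨z₀, hz₀, hFz, hseg, hcrit⟩ := Esc405.exists_start F hF0 hpos ε hε
  have hc1 : ‖F.eval z₀‖ ≤ 1 := by simpa using hseg 1 zero_le_one le_rfl
  -- uniform continuity
  have huc : UniformContinuousOn (fun z => F.eval z) (Metric.closedBall (0 : ℂ) 2) :=
    (isCompact_closedBall _ _).uniformContinuousOn_of_continuous F.continuous.continuousOn
  obtain ⟨δ, hδ, hδ2⟩ := Metric.uniformContinuousOn_iff.1 huc 1 one_pos
  obtain ⟨η, hη⟩ : ∃ η : ℝ, η = min (min ε δ) (1 / 2) := ⟨_, rfl⟩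
  have hη0 : 0 < η := by rw [hη]; positivity
  have hηε : η ≤ ε := by rw [hη]; exact (min_le_left _ _).trans (min_le_left _ _)
  have hηδ : η ≤ δ := by rw [hη]; exact (min_le_left _ _).trans (min_le_right _ _)
  have hη1 : η ≤ 1 / 2 := by rw [hη]; exact min_le_right _ _
  -- the minimum away from the zeros
  have hK : IsCompact (Metric.closedBall (0 : ℂ) 1 \ ⋃ ρ ∈ {ρ : ℂ | F.eval ρ = 0}, Metric.ball ρ η) :=
    (isCompact_closedBall _ _).diff (isOpen_biUnion fun ρ _ => Metric.isOpen_ball)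
  obtain ⟨m, hm0, hm⟩ := hK.exists_forall_le' (f := fun z => ‖F.eval z‖)
    F.continuous.norm.continuousOn (a := 0) (by
      intro b hb
      rw [norm_pos_iff]
      intro h0
      exact hb.2 (mem_biUnion (show b ∈ {ρ : ℂ | F.eval ρ = 0} from h0) (Metric.mem_ball_self hη0)))
  obtain ⟨τ, hτ⟩ : ∃ τ : ℝ, τ = max (1 / 2) (1 - m / 2) := ⟨_, rfl⟩
  have hτ0 : 0 < τ := by rw [hτ]; exact lt_max_of_lt_left (by norm_num)
  have hτ1 : τ < 1 := by rw [hτ]; exact max_lt (by norm_num) (by linarith)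
  have hτm : 1 - m / 2 ≤ τ := by rw [hτ]; exact le_max_right _ _
  obtain ⟨z, hzc, hz0, hzF⟩ := Esc405.exists_lift F z₀ hcrit τ hτ0 hτ1
  have hedist : ∀ a b : ℂ, ∀ r : ℝ, ‖b - a‖ ≤ r → edist a b ≤ ENNReal.ofReal r := by
    intro a b r h
    rw [edist_dist, dist_comm, dist_eq_norm]
    exact ENNReal.ofReal_le_ofReal h
  have hsum : ENNReal.ofReal ε + 4 * (n : ℝ≥0∞) + ENNReal.ofReal ε =
      4 * (n : ℝ≥0∞) + ENNReal.ofReal (2 * ε) := by
    rw [two_mul, ENNReal.ofReal_add hε.le hε.le]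
    ring
  have hFz1 : ∀ t, 0 ≤ t → t ≤ τ → ‖F.eval (z t)‖ ≤ 1 := by
    intro t h1 h2
    rw [hzF t h1 h2, norm_mul, Complex.norm_real, Real.norm_of_nonneg (by linarith)]
    exact mul_le_one₀ (by linarith) (norm_nonneg _) hc1
  have hs1 : ∀ x ∈ segment ℝ (0 : ℂ) (z 0), ‖f.eval x‖ ≤ 1 := by
    rintro x ⟨a, b, ha, hb, hab, rfl⟩
    rw [hz0, smul_zero, zero_add]
    have hb1 : b ≤ 1 := by linarith
    have e : b • z₀ = (b : ℂ) * z₀ := by rw [Complex.real_smul]
    rw [e]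
    refine (hle _ ?_).trans (hseg b hb hb1)
    rw [norm_mul, Complex.norm_real, Real.norm_of_nonneg hb]
    have := mul_le_mul hb1 (hz₀.trans hε1) (norm_nonneg _) zero_le_one
    linarith
  have hlen : ∀ T, 0 ≤ T → T ≤ τ → (∀ t, 0 ≤ t → t ≤ T → ‖z t‖ ≤ 1) →
      μH[1] (z '' Icc 0 T) ≤ 4 * n := by
    intro T hT0 hTτ hT1
    refine (Esc405.curve_length F hpos (F.eval z₀) hFz T hT0 z hzc hT1
      (fun t a b => hzF t a (b.trans hTτ))).trans ?_
    gcongr
  by_cases hA : ∃ t, 0 ≤ t ∧ t ≤ τ ∧ 1 ≤ ‖z t‖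
  · -- the curve reaches the circle
    obtain ⟨t₂, h20, h2τ, h21⟩ := hA
    obtain ⟨S, hS⟩ : ∃ S : Set ℝ, S = {t | t ∈ Icc 0 t₂ ∧ 1 ≤ ‖z t‖} := ⟨_, rfl⟩
    have hSc : IsCompact S := by
      have e : S = Icc 0 t₂ ∩ {t | 1 ≤ ‖z t‖} := by rw [hS]; rfl
      rw [e]
      exact isCompact_Icc.inter_right (isClosed_le continuous_const hzc.norm)
    have hSn : S.Nonempty := ⟨t₂, by rw [hS]; exact ⟨⟨h20, le_rfl⟩, h21⟩⟩
    obtain ⟨t₁, ht₁, hmin⟩ := hSc.exists_isLeast hSn
    rw [hS] at ht₁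
    have hlt : ∀ t, 0 ≤ t → t < t₁ → ‖z t‖ < 1 := by
      intro t h0 h1
      by_contra hcon
      push Not at hcon
      have : t₁ ≤ t := hmin (by rw [hS]; exact ⟨⟨h0, h1.le.trans ht₁.1.2⟩, hcon⟩)
      linarith
    have ht1 : ‖z t₁‖ = 1 := by
      refine le_antisymm ?_ ht₁.2
      rcases eq_or_lt_of_le ht₁.1.1 with h0 | h0
      · rw [← h0, hz0]
        exact hz₀.trans hε1
      · have hcl : t₁ ∈ closure (Ioo 0 t₁) := by
          rw [closure_Ioo h0.ne]
          exact ⟨h0.le, le_rfl⟩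
        have hclosed : IsClosed {t | ‖z t‖ ≤ 1} := isClosed_le hzc.norm continuous_const
        exact hclosed.closure_subset_iff.2 (fun t ht => (hlt t ht.1.le ht.2).le) hcl
    have hle1 : ∀ t, 0 ≤ t → t ≤ t₁ → ‖z t‖ ≤ 1 := by
      intro t h0 h1
      rcases eq_or_lt_of_le h1 with h | h
      · rw [h]; exact ht1.le
      · exact (hlt t h0 h).le
    have htτ : t₁ ≤ τ := ht₁.1.2.trans h2τ
    obtain ⟨ℓ, hℓ, hℓ2⟩ := join f z hzc t₁ ht₁.1.1 (z t₁) ht1 hs1
      (fun t a b => (hle _ (hle1 t a b)).trans (hFz1 t a (b.trans htτ)))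
      (fun x hx => by
        rw [segment_same, mem_singleton_iff] at hx
        rw [hx]
        exact (hle _ ht1.le).trans (hFz1 t₁ ht₁.1.1 htτ))
    refine ⟨ℓ, hℓ, hℓ2.trans ?_⟩
    rw [edist_self, add_zero]
    refine (add_le_add (hedist 0 (z 0) ε (by rw [hz0, sub_zero]; exact hz₀))
      (hlen t₁ ht₁.1.1 htτ hle1)).trans ?_
    rw [← hsum]
    exact le_self_add
  · -- the curve comes close to a zero
    push Not at hA
    have hle1 : ∀ t, 0 ≤ t → t ≤ τ → ‖z t‖ ≤ 1 := fun t a b => (hA t a b).le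
    have hsmall : ‖F.eval (z τ)‖ < m := by
      rw [hzF τ hτ0.le le_rfl, norm_mul, Complex.norm_real, Real.norm_of_nonneg (by linarith)]
      have : (1 - τ) * ‖F.eval z₀‖ ≤ (1 - τ) * 1 := mul_le_mul_of_nonneg_left hc1 (by linarith)
      linarith
    have hnot : z τ ∉ Metric.closedBall (0 : ℂ) 1 \ ⋃ ρ ∈ {ρ : ℂ | F.eval ρ = 0}, Metric.ball ρ η := by
      intro h
      have := hm _ h
      linarith
    have hin : z τ ∈ Metric.closedBall (0 : ℂ) 1 := by
      rw [mem_closedBall_zero_iff]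
      exact hle1 τ hτ0.le le_rfl
    have hU : z τ ∈ ⋃ ρ ∈ {ρ : ℂ | F.eval ρ = 0}, Metric.ball ρ η := by
      by_contra h
      exact hnot ⟨hin, h⟩
    simp only [mem_iUnion, exists_prop] at hU
    obtain ⟨ρ, hρ0, hρ⟩ := hU
    have hρ0' : F.eval ρ = 0 := hρ0
    have hρ1 := hroot ρ hρ0'
    rw [Metric.mem_ball, dist_eq_norm] at hρ
    -- the point of the segment on the circle
    obtain ⟨u, hu, hu1⟩ : ∃ u ∈ Icc (0 : ℝ) 1, ‖z τ + u • (ρ - z τ)‖ = 1 := by
      have hcont : ContinuousOn (fun u : ℝ => ‖z τ + u • (ρ - z τ)‖) (Icc 0 1) := by fun_prop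
      have h := intermediate_value_Icc zero_le_one hcont
      have h1 : (1 : ℝ) ∈ Icc ‖z τ + (0 : ℝ) • (ρ - z τ)‖ ‖z τ + (1 : ℝ) • (ρ - z τ)‖ := by
        rw [zero_smul, add_zero, one_smul, add_sub_cancel]
        exact ⟨hle1 τ hτ0.le le_rfl, hρ1⟩
      obtain ⟨u, hu, hu2⟩ := h h1
      exact ⟨u, hu, hu2⟩
    obtain ⟨w, hw⟩ : ∃ w : ℂ, w = z τ + u • (ρ - z τ) := ⟨_, rfl⟩
    rw [← hw] at hu1
    have hwz : ‖w - z τ‖ ≤ η := by
      rw [hw, add_sub_cancel_left, norm_smul, Real.norm_of_nonneg hu.1, norm_sub_rev]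
      have := mul_le_mul hu.2 hρ.le (norm_nonneg _) zero_le_one
      linarith
    have hs3 : ∀ x ∈ segment ℝ (z τ) w, ‖f.eval x‖ ≤ 1 := by
      intro x hx
      have hx1 : ‖x‖ ≤ 1 := by
        have hc := (convex_closedBall (0 : ℂ) 1).segment_subset hin
          (show w ∈ Metric.closedBall (0 : ℂ) 1 by rw [mem_closedBall_zero_iff]; exact hu1.le) hx
        rwa [mem_closedBall_zero_iff] at hc
      refine (hle x hx1).trans ?_
      -- `x` is close to `ρ`
      have hxρ : ‖x - ρ‖ < η := by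
        obtain ⟨a, b, ha, hb, hab, rfl⟩ := hx
        have e : a • z τ + b • w - ρ = (1 - b * u) • (z τ - ρ) := by
          have ha' : a = 1 - b := by linarith
          rw [hw, ha']
          simp only [smul_add, smul_sub, sub_smul, one_smul, smul_smul]
          abel
        have hbu0 : 0 ≤ b * u := mul_nonneg hb hu.1
        have hbu1 : b * u ≤ 1 := mul_le_one₀ (by linarith) hu.1 hu.2
        rw [e, norm_smul, Real.norm_of_nonneg (by linarith)]
        have := mul_le_mul_of_nonneg_right (show 1 - b * u ≤ 1 by linarith) (norm_nonneg (z τ - ρ))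
        linarith
      have hρ2 : ρ ∈ Metric.closedBall (0 : ℂ) 2 := by
        rw [mem_closedBall_zero_iff]
        have := norm_sub_le (z τ) (z τ - ρ)
        rw [sub_sub_cancel] at this
        have h5 := hle1 τ hτ0.le le_rfl
        linarith
      have hx2 : x ∈ Metric.closedBall (0 : ℂ) 2 := by
        rw [mem_closedBall_zero_iff]
        linarith
      have h6 := hδ2 x hx2 ρ hρ2 (by rw [dist_eq_norm]; linarith)
      rw [dist_eq_norm, hρ0', sub_zero] at h6
      exact h6.le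
    obtain ⟨ℓ, hℓ, hℓ2⟩ := join f z hzc τ hτ0.le w hu1 hs1
      (fun t a b => (hle _ (hle1 t a b)).trans (hFz1 t a b)) hs3
    refine ⟨ℓ, hℓ, hℓ2.trans ?_⟩
    rw [← hsum]
    exact add_le_add (add_le_add (hedist 0 (z 0) ε (by rw [hz0, sub_zero]; exact hz₀))
      (hlen τ hτ0.le le_rfl hle1)) (hedist (z τ) w ε (hwz.trans hηε))

/-- **the upper bound** -/
theorem upper (f : ℂ[X]) (n : ℕ) (hn : 1 ≤ n) (hf : f.Monic) (hd : f.natDegree = n)
    (hr : ∀ z : ℂ, f.eval z = 0 → ‖z‖ ≤ 1) (ε : ℝ) (hε : 0 < ε) (hε1 : ε ≤ 1) :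
    ∃ ℓ, Esc f ℓ ∧ ℓ ≤ 4 * n + ENNReal.ofReal (2 * ε) := by
  have hs : ∀ a ∈ f.roots, ‖a‖ ≤ 1 := fun a ha => hr a ((mem_roots hf.ne_zero).1 ha)
  have hsplit : f.Splits := IsAlgClosed.splits f
  have hprod : f = (f.roots.map fun a => X - C a).prod := by
    exact hsplit.eq_prod_roots_of_monic hf
  have hcard : Multiset.card f.roots = n := by
    rw [← hd]
    exact hsplit.natDegree_eq_card_roots.symm
  have hle : ∀ z : ℂ, ‖z‖ ≤ 1 → ‖f.eval z‖ ≤ ‖(rcp f.roots).eval z‖ := by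
    intro z hz
    have h := norm_le_rcp f.roots hs z hz
    rwa [← hprod] at h
  rcases Nat.eq_zero_or_pos (rcp f.roots).natDegree with h0 | h0
  · have hconst : ∀ z : ℂ, (rcp f.roots).eval z = 1 := by
      intro z
      rw [eq_C_of_natDegree_eq_zero h0, eval_C]
      have := rcp_zero f.roots
      rwa [eq_C_of_natDegree_eq_zero h0, eval_C] at this
    obtain ⟨ℓ, hℓ, hℓ2⟩ := join f (fun _ => 1) continuous_const 0 le_rfl 1 (by simp)
      (fun x hx => by
        have hc := (convex_closedBall (0 : ℂ) 1).segment_subset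
          (show (0 : ℂ) ∈ Metric.closedBall (0 : ℂ) 1 by simp)
          (show (1 : ℂ) ∈ Metric.closedBall (0 : ℂ) 1 by simp) hx
        rw [mem_closedBall_zero_iff] at hc
        have := hle x hc
        rwa [hconst, norm_one] at this)
      (fun t _ _ => by
        have := hle 1 (by simp)
        rwa [hconst, norm_one] at this)
      (fun x hx => by
        rw [segment_same, mem_singleton_iff] at hx
        rw [hx]
        have := hle 1 (by simp)
        rwa [hconst, norm_one] at this)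
    refine ⟨ℓ, hℓ, hℓ2.trans ?_⟩
    have hn' : (1 : ℝ≥0∞) ≤ n := by exact_mod_cast hn
    have e1 : edist (0 : ℂ) 1 = 1 := by
      rw [edist_dist, dist_zero_left, norm_one, ENNReal.ofReal_one]
    have e2 : μH[1] ((fun _ : ℝ => (1 : ℂ)) '' Icc 0 0) = 0 := by
      rw [Icc_self, image_singleton]
      have h := hausdorffMeasure_segment (1 : ℂ) 1
      rwa [segment_same, edist_self] at h
    rw [e1, e2, edist_self, add_zero, add_zero]
    calc (1 : ℝ≥0∞) ≤ n := hn'
      _ ≤ 4 * n := by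
        have : (n : ℝ≥0∞) = 1 * n := (one_mul _).symm
        conv_lhs => rw [this]
        gcongr
        norm_num
      _ ≤ _ := le_self_add
  · exact upper_aux f (rcp f.roots) n hle (rcp_zero _) ((rcp_deg _).trans hcard.le) h0
      (rcp_root _ hs) ε hε hε1

end Pool.Agent.V1185.Esc
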