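import Pool.Agent.V1185.Esc.Low

/-!
# The choice of the level of the tube for a given degree
-/

set_option autoImplicit false

open Filter Topology

namespace Pool.Agent.V1185.Esc

lemma q_le : (100 * 11 ^ 30 : ℝ) ≤ Real.exp 77 := by
  have h1 := Real.exp_one_gt_d9
  have h5 : (100 : ℝ) ≤ Real.exp 5 := by
    have : Real.exp 5 = Real.exp 1 ^ 5 := by rw [← Real.exp_nat_mul]; norm_num
    rw [this]
    calc (100 : ℝ) ≤ 2.7182818283 ^ 5 := by norm_num
      _ ≤ Real.exp 1 ^ 5 := pow_le_pow_left₀ (by norm_num) h1.le 5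
  have h12 : (11 ^ 5 : ℝ) ≤ Real.exp 12 := by
    have : Real.exp 12 = Real.exp 1 ^ 12 := by rw [← Real.exp_nat_mul]; norm_num
    rw [this]
    calc (11 ^ 5 : ℝ) ≤ 2.7182818283 ^ 12 := by norm_num
      _ ≤ Real.exp 1 ^ 12 := pow_le_pow_left₀ (by norm_num) h1.le 12
  have h72 : (11 ^ 30 : ℝ) ≤ Real.exp 72 := by
    have : Real.exp 72 = Real.exp 12 ^ 6 := by rw [← Real.exp_nat_mul]; norm_num
    rw [this]
    calc (11 ^ 30 : ℝ) = (11 ^ 5) ^ 6 := by norm_num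
      _ ≤ Real.exp 12 ^ 6 := pow_le_pow_left₀ (by norm_num) h12 6
  calc (100 * 11 ^ 30 : ℝ) ≤ Real.exp 5 * Real.exp 72 :=
        mul_le_mul h5 h72 (by positivity) (by positivity)
    _ = Real.exp 77 := by rw [← Real.exp_add]; norm_num

lemma thr_le (J : ℕ) : (thr J : ℝ) ≤ 4000 * 11 ^ 60 * Real.exp (77 * J) := by
  unfold thr
  push_cast
  obtain ⟨a, ha⟩ : ∃ a : ℝ, a = 100 ^ J := ⟨_, rfl⟩
  obtain ⟨b, hb⟩ : ∃ b : ℝ, b = 11 ^ (30 * J + 60) := ⟨_, rfl⟩
  obtain ⟨c, hc⟩ : ∃ c : ℝ, c = 8 ^ (30 * J + 60) := ⟨_, rfl⟩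
  have ha1 : 1 ≤ a := by rw [ha]; exact one_le_pow₀ (by norm_num)
  have hb1 : 1 ≤ b := by rw [hb]; exact one_le_pow₀ (by norm_num)
  have hcb : c ≤ b := by rw [hb, hc]; exact pow_le_pow_left₀ (by norm_num) (by norm_num) _
  have hab : 1 ≤ a * b := one_le_mul_of_one_le_of_one_le ha1 hb1
  have hac : a * c ≤ a * b := mul_le_mul_of_nonneg_left hcb (by linarith)
  have h1 : a * b = 11 ^ 60 * (100 * 11 ^ 30) ^ J := by
    rw [ha, hb, mul_pow, ← pow_mul, pow_add]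
    ring
  have h2 : ((100 * 11 ^ 30 : ℝ)) ^ J ≤ Real.exp (77 * J) := by
    rw [mul_comm (77 : ℝ), Real.exp_nat_mul]
    exact pow_le_pow_left₀ (by positivity) q_le J
  rw [← ha, ← hb, ← hc]
  calc 3 * (1000 * a * b + 5) + 250 * a * c = 3000 * (a * b) + 15 + 250 * (a * c) := by ring
    _ ≤ 4000 * (a * b) := by linarith
    _ = 4000 * 11 ^ 60 * (100 * 11 ^ 30) ^ J := by rw [h1]; ring
    _ ≤ _ := mul_le_mul_of_nonneg_left h2 (by positivity)

/-- for every large degree there is a suitable level -/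
theorem level : ∀ᶠ n : ℕ in atTop, ∃ J : ℕ, 1 ≤ J ∧ thr J ≤ n ∧
    (n : ℝ) ^ (1 / 10 ^ 7 : ℝ) ≤ Real.exp (J / 10 ^ 5) / 4 := by
  have hlog : Tendsto (fun n : ℕ => Real.log (n : ℝ)) atTop atTop :=
    Real.tendsto_log_atTop.comp tendsto_natCast_atTop_atTop
  have hexp : ∀ᶠ n : ℕ in atTop, (4000 * 11 ^ 60 : ℝ) ≤ Real.exp (3 / 80 * Real.log n) := by
    have h1 : Tendsto (fun n : ℕ => Real.exp (3 / 80 * Real.log (n : ℝ))) atTop atTop :=
      Real.tendsto_exp_atTop.comp (hlog.const_mul_atTop (by norm_num))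
    exact h1.eventually_ge_atTop _
  filter_upwards [hlog.eventually_ge_atTop (10 ^ 9), hexp, eventually_ge_atTop 1] with n h1 h2 h3
  have hn0 : (0 : ℝ) < n := by exact_mod_cast h3
  obtain ⟨L, hL⟩ : ∃ L : ℝ, L = Real.log n := ⟨_, rfl⟩
  rw [← hL] at h1 h2
  have hL0 : 0 ≤ L / 80 := by
    have : (0 : ℝ) ≤ 10 ^ 9 := by norm_num
    linarith
  obtain ⟨J, hJ⟩ : ∃ J : ℕ, J = ⌊L / 80⌋₊ := ⟨_, rfl⟩
  have hJ1 : (J : ℝ) ≤ L / 80 := by rw [hJ]; exact Nat.floor_le hL0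
  have hJ2 : L / 80 < J + 1 := by rw [hJ]; exact Nat.lt_floor_add_one _
  have hnexp : (n : ℝ) = Real.exp L := by rw [hL, Real.exp_log hn0]
  refine ⟨J, ?_, ?_, ?_⟩
  · have h4 : (0 : ℝ) < J := by
      have : (10 : ℝ) ^ 9 / 80 ≤ L / 80 := by linarith
      norm_num at this
      linarith
    exact_mod_cast h4
  · have h5 : (thr J : ℝ) ≤ n := by
      calc (thr J : ℝ) ≤ 4000 * 11 ^ 60 * Real.exp (77 * J) := thr_le J
        _ ≤ Real.exp (3 / 80 * L) * Real.exp (77 / 80 * L) := by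
            refine mul_le_mul h2 (Real.exp_le_exp.2 ?_) (by positivity) (by positivity)
            linarith
        _ = Real.exp L := by rw [← Real.exp_add]; congr 1; ring
        _ = n := hnexp.symm
    exact_mod_cast h5
  · have h6 : (4 : ℝ) ≤ Real.exp 2 := by
      have h7 : Real.exp 2 = Real.exp 1 ^ 2 := by rw [← Real.exp_nat_mul]; norm_num
      rw [h7]
      have := Real.exp_one_gt_d9
      nlinarith
    rw [le_div_iff₀ (by norm_num), hnexp, ← Real.exp_mul]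
    calc Real.exp (L * (1 / 10 ^ 7)) * 4 ≤ Real.exp (L * (1 / 10 ^ 7)) * Real.exp 2 :=
          mul_le_mul_of_nonneg_left h6 (Real.exp_pos _).le
      _ = Real.exp (L * (1 / 10 ^ 7) + 2) := by rw [← Real.exp_add]
      _ ≤ Real.exp (J / 10 ^ 5) := by
          apply Real.exp_le_exp.2
          norm_num
          norm_num at h1
          linarith

end Pool.Agent.V1185.Esc
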