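import Pool.Agent.Esc405.M8
import Pool.Agent.Esc405.M10
import Pool.Agent.Esc405.M11

/-!
# Assembly of the project `Esc405`: long tubes and polynomials which are large on their walls
-/

set_option autoImplicit false

open Complex Polynomial MeasureTheory Filter Topology Set

namespace Pool.Agent.V1185.Esc

open Esc405

lemma R_zero : R 0 = 0 := by simp [R]

lemma phi_zero (J : ℕ) : phi J 0 = 0 := by
  have h : R^[J] 0 = 0 := Function.iterate_fixed R_zero J
  simp [phi, h]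

lemma D_ne {v : ℂ} (hv : v ∈ U) (J : ℕ) : D J v ≠ 0 := by
  have h1 := D_lower hv J
  intro h
  rw [h, norm_zero] at h1
  have h2 : (0 : ℝ) < (63 / 6400) ^ J := by positivity
  linarith

lemma phi_hasDerivAt (J : ℕ) (v : ℂ) : HasDerivAt (phi J) (D J v / 16) v :=
  (hasDerivAt_iter J v).div_const 16

lemma phi_strict (J : ℕ) (v : ℂ) : HasStrictDerivAt (phi J) (D J v / 16) v := by
  have hd : Differentiable ℂ (phi J) := fun w => (phi_hasDerivAt J w).differentiableAt
  have h := (hd.analyticAt v).hasStrictDerivAt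
  rwa [(phi_hasDerivAt J v).deriv] at h

lemma phi_open (J : ℕ) (O : Set ℂ) (hO : IsOpen O) (hOU : O ⊆ {v | |v.im| ≤ 1}) :
    IsOpen (phi J '' O) := by
  rw [isOpen_iff_mem_nhds]
  rintro _ ⟨v, hv, rfl⟩
  have h := (phi_strict J v).map_nhds_eq (div_ne_zero (D_ne (hOU hv) J) (by norm_num))
  rw [← h]
  exact Filter.image_mem_map (hO.mem_nhds hv)

lemma phi_inj (J : ℕ) : Set.InjOn (phi J) U := by
  intro v hv v' hv' h
  apply iter_inj J hv hv'
  have h2 : R^[J] v / 16 = R^[J] v' / 16 := h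
  have h3 := congrArg (fun z : ℂ => z * 16) h2
  simpa using h3

lemma cross_dist (J i : ℕ) {v v' : ℂ} (h1 : v.re = (i : ℝ) * (Real.pi / 4))
    (h2 : v'.re = ((i + 1 : ℕ) : ℝ) * (Real.pi / 4)) (h3 : |v.im| ≤ 1 / 10) (h4 : |v'.im| ≤ 1 / 10) :
    ‖D J (((i : ℝ) * (Real.pi / 4) : ℝ) : ℂ)‖ / 32 ≤ ‖phi J v' - phi J v‖ := by
  have hpi := Real.pi_gt_three
  have hpi4 := Real.pi_le_four
  set x : ℂ := (((i : ℝ) * (Real.pi / 4) : ℝ) : ℂ) with hx
  have hxU : x ∈ U := by
    show |x.im| ≤ 1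
    rw [hx, Complex.ofReal_im]
    simp
  have hvU : v ∈ U := by
    show |v.im| ≤ 1
    linarith
  have hvU' : v' ∈ U := by
    show |v'.im| ≤ 1
    linarith
  have e1 : ‖v - x‖ ≤ 1 / 10 := by
    refine (Complex.norm_le_abs_re_add_abs_im _).trans ?_
    rw [Complex.sub_re, Complex.sub_im, h1, hx, Complex.ofReal_re, Complex.ofReal_im, sub_self,
      abs_zero, zero_add, sub_zero]
    exact h3
  have e2 := D_dist J hxU hvU (by linarith)
  have hD0 := norm_nonneg (D J x)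
  have e3 : ‖D J v - D J x‖ ≤ 1 / 500 * ‖D J x‖ := by
    refine e2.trans (mul_le_mul_of_nonneg_right ?_ hD0)
    linarith
  have e4 : ‖D J x‖ ≤ ‖D J v‖ + ‖D J v - D J x‖ := by
    have := norm_sub_le (D J v) (D J v - D J x)
    simpa using this
  have hre : (v' - v).re = Real.pi / 4 := by
    rw [Complex.sub_re, h1, h2]
    push_cast
    ring
  have e5 : Real.pi / 4 ≤ ‖v' - v‖ := by
    have := Complex.abs_re_le_norm (v' - v)
    rw [hre, abs_of_pos (by positivity)] at this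
    exact this
  have e6 : ‖v' - v‖ ≤ 2 := by
    refine (Complex.norm_le_abs_re_add_abs_im _).trans ?_
    rw [hre, abs_of_pos (by positivity), Complex.sub_im]
    have := abs_sub v'.im v.im
    linarith
  have e7 := h396_near_lower J hvU hvU' e6
  have e8 : ‖phi J v' - phi J v‖ = ‖R^[J] v' - R^[J] v‖ / 16 := by
    unfold phi
    rw [← sub_div, norm_div]
    congr 1
    norm_num
  rw [e8]
  have e9 : 24 / 25 * ‖D J v‖ * (3 / 4) ≤ 24 / 25 * ‖D J v‖ * ‖v' - v‖ :=
    mul_le_mul_of_nonneg_left (by linarith) (by positivity)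
  linarith

/-- a connected set which leaves the tube through its open end is long -/
theorem tube_lower (J : ℕ) {Γ : Set ℂ} (hΓ : IsPreconnected Γ) (hm : MeasurableSet Γ)
    (h0 : (0 : ℂ) ∈ Γ) (h1 : ∃ z ∈ Γ, ‖z‖ = 1)
    (hw : ∀ v : ℂ, -1 ≤ v.re → v.re ≤ 2 * Real.pi * 100 ^ J → |v.im| ≤ 1 / 10 →
      (|v.im| = 1 / 10 ∨ v.re = -1) → phi J v ∉ Γ) :
    ENNReal.ofReal (Real.exp (J / 10 ^ 5) / 4) ≤ μH[1] Γ := by
  have hsub : {v : ℂ | -1 ≤ v.re ∧ v.re ≤ 2 * Real.pi * 100 ^ J ∧ |v.im| ≤ 1 / 10} ⊆ U := by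
    rintro v ⟨_, _, h⟩
    show |v.im| ≤ 1
    linarith
  have h := tube_length (g := phi J) (cont_phi833 J) (X := 2 * Real.pi * 100 ^ J) (h := 1 / 10)
    (by norm_num) (by norm_num) (phi_open J) ((phi_inj J).mono hsub) (8 * 100 ^ J)
    (fun i => (i : ℝ) * (Real.pi / 4)) (fun i => ‖D J (((i : ℝ) * (Real.pi / 4) : ℝ) : ℂ)‖ / 32)
    (fun i j hij => by
      have hij' : (i : ℝ) < j := by exact_mod_cast hij
      exact mul_lt_mul_of_pos_right hij' (by positivity))
    (by simp) (by push_cast; apply le_of_eq; ring)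
    (fun i _ v v' a b c d => cross_dist J i a b c d) hΓ hm (by rw [phi_zero]; exact h0)
    (by
      obtain ⟨z, hz, hz1⟩ := h1
      refine ⟨z, hz, fun hT => ?_⟩
      have : ‖z‖ ≤ 1 / 2 := T_small J hT
      linarith) hw
  refine le_trans ?_ h
  rw [← ENNReal.ofReal_sum_of_nonneg (fun i _ => by positivity)]
  apply ENNReal.ofReal_le_ofReal
  rw [← Finset.sum_div]
  have := growth J
  linarith

/-- the polynomial attached to the tube -/
theorem exists_g (J : ℕ) (hJ : 1 ≤ J) : ∃ g : ℂ[X], g.coeff 0 = 1 ∧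
    g.natDegree ≤ 250 * 100 ^ J * 8 ^ (30 * J + 60) ∧ (∀ z : ℂ, ‖z‖ ≤ 1 → g.eval z ≠ 0) ∧
    ∀ v : ℂ, -1 ≤ v.re → v.re ≤ 2 * Real.pi * 100 ^ J → |v.im| ≤ 1 / 10 →
      (|v.im| = 1 / 10 ∨ v.re = -1) →
      1 + 1 / (8 * (2 : ℝ) ^ (1000 * 100 ^ J * 11 ^ (30 * J + 60))) ≤ ‖g.eval (phi J v)‖ := by
  obtain ⟨P, hPd, hPB, hP⟩ := exists_P J hJ
  set B : ℝ := (2 : ℝ) ^ (1000 * 100 ^ J * 11 ^ (30 * J + 60)) with hB
  have hB1 : 1 ≤ B := one_le_pow₀ (by norm_num)
  set κ : ℂ := ((1 / (4 * B) : ℝ) : ℂ) with hκ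
  have hX : (0 : ℝ) ≤ 2 * Real.pi * 100 ^ J := by positivity
  have h0S : (0 : ℂ) ∈ Sig J := by
    refine ⟨?_, ?_, ?_⟩ <;> simp
    positivity
  have hP0 : ‖P.eval 0 - 1‖ ≤ 1 / 8 := by
    have := hP 0 h0S
    rw [phi_zero, mul_zero, Complex.exp_zero] at this
    exact this
  have hev : ∀ z : ℂ, (1 - C κ * (P - C (P.eval 0))).eval z = 1 - κ * (P.eval z - P.eval 0) := by
    intro z
    simp
  refine ⟨1 - C κ * (P - C (P.eval 0)), ?_, ?_, ?_, ?_⟩
  · rw [coeff_zero_eq_eval_zero, hev, sub_self, mul_zero, sub_zero]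
  · refine (natDegree_sub_le _ _).trans (max_le (by simp) ?_)
    refine (natDegree_C_mul_le _ _).trans ((natDegree_sub_le _ _).trans (max_le hPd ?_))
    rw [natDegree_C]
    exact Nat.zero_le _
  · intro z hz h
    rw [hev] at h
    have h1 : κ * (P.eval z - P.eval 0) = 1 := by linear_combination -h
    have h2 := congrArg norm h1
    rw [norm_mul, norm_one, hκ, Complex.norm_real, Real.norm_of_nonneg (by positivity)] at h2
    have h3 : ‖P.eval z - P.eval 0‖ ≤ 2 * B := by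
      refine (norm_sub_le _ _).trans ?_
      have a1 := hPB z (by linarith)
      have a2 := hPB 0 (by simp)
      linarith
    have h4 : 1 / (4 * B) * ‖P.eval z - P.eval 0‖ ≤ 1 / (4 * B) * (2 * B) :=
      mul_le_mul_of_nonneg_left h3 (by positivity)
    have h5 : 1 / (4 * B) * (2 * B) = 1 / 2 := by
      field_simp
      norm_num
    rw [h2, h5] at h4
    norm_num at h4
  · intro v h1 h2 h3 h4
    have hv : v ∈ Sig J := ⟨h1, h2, h3⟩
    have hPv := hP v hv
    rw [hev]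
    have hcos : (cexp (10 * Real.pi * v)).re ≤ 1 / 8 := by
      have e1 : (10 * (Real.pi : ℂ) * v).re = 10 * Real.pi * v.re := by
        have : (10 * (Real.pi : ℂ) * v) = ((10 * Real.pi : ℝ) : ℂ) * v := by push_cast; ring
        rw [this, Complex.re_ofReal_mul]
      have e2 : (10 * (Real.pi : ℂ) * v).im = 10 * Real.pi * v.im := by
        have : (10 * (Real.pi : ℂ) * v) = ((10 * Real.pi : ℝ) : ℂ) * v := by push_cast; ring
        rw [this, Complex.im_ofReal_mul]
      rcases h4 with h4 | h4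
      · rw [Complex.exp_re, e1, e2]
        have e3 : Real.cos (10 * Real.pi * v.im) = -1 := by
          rw [← Real.cos_abs, abs_mul, h4, abs_of_pos (by positivity)]
          rw [show 10 * Real.pi * (1 / 10) = Real.pi by ring, Real.cos_pi]
        rw [e3]
        have := Real.exp_pos (10 * Real.pi * v.re)
        linarith
      · refine (Complex.re_le_norm _).trans ?_
        rw [Complex.norm_exp, e1, h4]
        have hpi := Real.pi_gt_three
        calc Real.exp (10 * Real.pi * -1) ≤ Real.exp (-3) := Real.exp_le_exp.2 (by linarith)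
          _ ≤ 1 / 8 := by
            rw [Real.exp_neg, one_div]
            apply inv_anti₀ (by norm_num)
            have h5 := Real.exp_one_gt_d9
            have h6 : Real.exp 3 = Real.exp 1 ^ 3 := by rw [← Real.exp_nat_mul]; norm_num
            rw [h6]
            calc (8 : ℝ) = 2 ^ 3 := by norm_num
              _ ≤ Real.exp 1 ^ 3 := pow_le_pow_left₀ (by norm_num) (by linarith) 3
    have hre1 : (P.eval (phi J v)).re ≤ 1 / 4 := by
      have e1 := (Complex.abs_re_le_norm (P.eval (phi J v) - cexp (10 * Real.pi * v))).trans hPv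
      rw [Complex.sub_re] at e1
      have e2 := (abs_le.1 e1).2
      linarith
    have hre0 : 7 / 8 ≤ (P.eval 0).re := by
      have e1 := (Complex.abs_re_le_norm (P.eval 0 - 1)).trans hP0
      rw [Complex.sub_re, Complex.one_re] at e1
      have e2 := (abs_le.1 e1).1
      linarith
    refine le_trans ?_ (Complex.re_le_norm _)
    rw [Complex.sub_re, Complex.one_re, hκ, Complex.re_ofReal_mul, Complex.sub_re]
    have h5 : 1 / (4 * B) * ((P.eval (phi J v)).re - (P.eval 0).re) ≤ 1 / (4 * B) * (-(1 / 2)) :=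
      mul_le_mul_of_nonneg_left (by linarith) (by positivity)
    have h6 : 1 / (4 * B) * (-(1 / 2)) = -(1 / (8 * B)) := by
      field_simp
      norm_num
    linarith

/-- the threshold for the degree -/
def thr (J : ℕ) : ℕ := 3 * (1000 * 100 ^ J * 11 ^ (30 * J + 60) + 5) + 250 * 100 ^ J * 8 ^ (30 * J + 60)

lemma arith (B t y : ℝ) (hB : 1 ≤ B) (h : t ≤ 1 / (32 * B)) (hy : 1 + 1 / (8 * B) ≤ y) :
    1 < y * (1 - t) := by
  obtain ⟨x, hx⟩ : ∃ x : ℝ, x = 1 / (8 * B) := ⟨_, rfl⟩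
  have hB0 : 0 < B := by linarith
  have hx0 : 0 < x := by rw [hx]; positivity
  have hx1 : x ≤ 1 / 8 := by
    rw [hx, div_le_div_iff₀ (by positivity) (by norm_num)]
    linarith
  have h8 : 1 / (32 * B) = x / 4 := by
    rw [hx]
    field_simp
    norm_num
  rw [h8] at h
  rw [← hx] at hy
  have h9 : (1 + x) * (1 - x / 4) ≤ y * (1 - t) :=
    mul_le_mul hy (by linarith) (by linarith) (by linarith)
  have h10 : 1 < (1 + x) * (1 - x / 4) := by nlinarith
  exact lt_of_lt_of_le h10 h9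

lemma arith2 (E m : ℕ) (hm : 3 * (E + 5) ≤ m) : (3 / 4 : ℝ) ^ m ≤ 1 / (32 * 2 ^ E) := by
  calc (3 / 4 : ℝ) ^ m ≤ (3 / 4 : ℝ) ^ (3 * (E + 5)) :=
        pow_le_pow_of_le_one (by norm_num) (by norm_num) hm
    _ = ((3 / 4 : ℝ) ^ 3) ^ (E + 5) := by rw [pow_mul]
    _ ≤ (1 / 2 : ℝ) ^ (E + 5) := pow_le_pow_left₀ (by norm_num) (by norm_num) _
    _ = 1 / (32 * 2 ^ E) := by
        rw [one_div_pow, pow_add]
        norm_num
        ring

/-- admissible polynomials of all large degrees which are large on the walls of the tube -/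
theorem exists_f (J : ℕ) (hJ : 1 ≤ J) (n : ℕ) (hn : thr J ≤ n) : ∃ f : ℂ[X], f.Monic ∧
    f.natDegree = n ∧ (∀ z : ℂ, f.eval z = 0 → ‖z‖ ≤ 1) ∧ f.eval 0 = 1 ∧
    ∀ v : ℂ, -1 ≤ v.re → v.re ≤ 2 * Real.pi * 100 ^ J → |v.im| ≤ 1 / 10 →
      (|v.im| = 1 / 10 ∨ v.re = -1) → 1 < ‖f.eval (phi J v)‖ := by
  obtain ⟨g, hg0, hgd, hg1, hgw⟩ := exists_g J hJ
  obtain ⟨E, hE⟩ : ∃ E : ℕ, E = 1000 * 100 ^ J * 11 ^ (30 * J + 60) := ⟨_, rfl⟩
  rw [← hE] at hgw
  have hthr : 3 * (E + 5) + g.natDegree ≤ n := le_trans (by unfold thr; rw [← hE]; omega) hn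
  obtain ⟨m, hm⟩ : ∃ m, m = n - g.natDegree := ⟨_, rfl⟩
  have hm1 : 3 * (E + 5) ≤ m := by omega
  have hm2 : 1 ≤ m := by omega
  refine ⟨fam g m, fam_monic g hg0 m hm2, ?_, ?_, ?_, ?_⟩
  · rw [fam_natDegree g hg0 m hm2]
    omega
  · intro z hz
    have h1 := fam_roots g hg1 m hm2
    have h2 : z ∈ (fam g m).rootSet ℂ := by
      rw [mem_rootSet]
      exact ⟨(fam_monic g hg0 m hm2).ne_zero, by simpa using hz⟩
    simpa using h1 h2
  · simp only [fam, eval_add, eval_mul, eval_pow, eval_X]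
    rw [zero_pow (by omega), zero_mul, zero_add, ← coeff_zero_eq_eval_zero, hg0]
  · intro v h1 h2 h3 h4
    have hz : ‖phi J v‖ ≤ 3 / 4 := by
      have : ‖phi J v‖ ≤ 1 / 2 := T_small J ⟨v, ⟨h1, h2, h3⟩, rfl⟩
      linarith
    have h5 := fam_large g hg1 m (phi J v) hz
    have h6 := hgw v h1 h2 h3 h4
    refine lt_of_lt_of_le ?_ h5
    exact arith _ _ _ (one_le_pow₀ (by norm_num)) (arith2 _ m hm1) h6

end Pool.Agent.V1185.Esc
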